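import Mathlib
import Pool.Agent.Helper5.Polynormed
import Pool.Agent.Helper5.Amen
import Pool.Agent.Helper5.TreeAlg
import Pool.Agent.Helper5.TreeBrai
import Pool.Agent.Helper5.TreeMod

set_option autoImplicit false

namespace Pool.Agent.Results.MP_09c931_an.NotAmenable

open Pool.Agent.Helper5 Filter Topology

/-- The algebra of the counterexample has no countable neighbourhood basis of zero. -/
lemma not_firstCountable : ¬ FirstCountableTopology (ℝ → A0) := by
  intro h
  obtain ⟨U, hU⟩ := (𝓝 (0 : ℝ → A0)).exists_antitone_basis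
  have h1 : ∀ n, ∃ I : Set ℝ, I.Finite ∧ ∃ t : ℝ → Set A0,
      (∀ i, t i ∈ 𝓝 (0 : A0)) ∧ I.pi t ⊆ U n := by
    intro n
    have := hU.mem n
    rw [nhds_pi, Filter.mem_pi] at this
    exact this
  choose I hI t ht hIt using h1
  have hc : (⋃ n, I n).Countable := Set.countable_iUnion fun n => (hI n).countable
  obtain ⟨d, hd⟩ : ∃ d : ℝ, d ∉ ⋃ n, I n := by
    by_contra hcon
    push Not at hcon
    exact Cardinal.not_countable_real (hc.mono fun x _ => hcon x)
  let b : Br := fun _ => false
  let e : A0 := ⟨eb b, eb_mem b⟩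
  have he : 1 ≤ ‖e‖ := by
    have h2 : ‖(eb b) b OnePoint.infty‖ ≤ ‖eb b‖ := (kc_apply_le _ _).trans (lb_apply_le _ _)
    have h3 : (eb b) b OnePoint.infty = 1 := ebFun_self b _
    rw [h3, norm_one] at h2
    exact h2
  have hV : {a : ℝ → A0 | ‖a d‖ < 1} ∈ 𝓝 (0 : ℝ → A0) := by
    have hc : Continuous fun a : ℝ → A0 => ‖a d‖ := (continuous_apply d).norm
    apply (isOpen_lt hc continuous_const).mem_nhds
    simp
  obtain ⟨n, hn⟩ := hU.mem_iff.1 hV
  have hmem : (Pi.single d e : ℝ → A0) ∈ U n := by
    apply hIt n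
    intro i hi
    have hne : i ≠ d := by
      rintro rfl
      exact hd (Set.mem_iUnion.2 ⟨n, hi⟩)
    rw [Pi.single_eq_of_ne hne]
    exact mem_of_mem_nhds (ht n i)
  have h4 := hn hmem
  simp only [Set.mem_ofPred_eq, Pi.single_eq_same] at h4
  linarith

/-- There is a commutative Arens-Michael algebra, not metrizable, whose diagonal ideal has a
bounded right approximate identity and which is not amenable. -/
theorem result : ∃ (A : Type) (_ : NonUnitalCommRing A) (_ : Module ℂ A) (_ : UniformSpace A),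
    IsArensMichael A ∧ ¬ FirstCountableTopology A ∧ HasDiagonalBRAI A ∧ ¬ Amenable A :=
  ⟨ℝ → A0, inferInstance, inferInstance, inferInstance, isArensMichael ℝ, not_firstCountable,
    hasDiagonalBRAI, not_amenable⟩

end Pool.Agent.Results.MP_09c931_an.NotAmenable
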